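import Pool.Agent.Helper96.SE.St
import Pool.Agent.Helper24.TF.M_F8

/-!
# Project SE, module E12: the main theorem
-/

set_option autoImplicit false

namespace Pool.Agent.Helper91.SE

open NumberField IsDedekindDomain Polynomial Filter Topology
open Pool.Agent.Helper96.SE Pool.Agent.Helper96.BC Pool.Agent.Helper95.TT Pool.Agent.Helper24.TF
open Pool.Agent.Helper95.WS
open scoped Classical

noncomputable section

variable {k : Type} [Field k] [NumberField k] {m : ℕ}

private lemma e8_kv (hE8 : StE8) (v : Pr k) (n : ℕ) (hn : n.Prime) (h : (Kv v)[X])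
    (h1 : 1 ≤ h.natDegree) (h2 : Squarefree h) (a : Kv v) (ha : a ≠ 0) :
    |(tN n (C a * h) : ℝ)| ≤ gg n h.natDegree * √(q v) := by
  let _ : Field (Kv v) := Ideal.Quotient.field v.asIdeal
  let _ : Fintype (Kv v) := Fintype.ofFinite _
  have h3 := (hE8 (Kv v) n h hn h1 h2).2.2 a ha
  have h4 : (Fintype.card (Kv v) : ℝ) = q v := by
    rw [← card_Kv, Nat.card_eq_fintype_card]
  rw [h4] at h3
  exact h3

private lemma e7_kv (hE7 : StE7) (v : Pr k) (n : ℕ) (hn : n.Prime) (c : Kv v) :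
    Nat.card {z : Kv v // z ^ n = c} ≤ n := by
  let _ : Field (Kv v) := Ideal.Quotient.field v.asIdeal
  let _ : Fintype (Kv v) := Fintype.ofFinite _
  exact (hE7 (Kv v) n hn).2.2.1 c

private lemma e9_kv (hE9 : StE9) (v : Pr k) (n : ℕ) (hn : n.Prime) (h : (Kv v)[X])
    (h1 : 1 ≤ h.natDegree) (h2 : Squarefree h) (ι : Type) [Fintype ι] (a : ι → Kv v) (y : ι → ℝ)
    (t : ℝ) (ha : ∀ i, a i ≠ 0) :
    2 * ∑ i, y i * ((tN n (C (a i) * h) : ℝ) * t) ≤
    ((n : ℝ) - 1) * (((n : ℝ) - 1) * (dd n h.natDegree * √(q v) * t) ^ 2) +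
    ((n : ℝ) - 1)⁻¹ * ∑ i, ∑ j, y i * y j *
      ((Nat.card {z : Kv v // z ^ n = a i * a j ^ (n - 1)} : ℝ) - 1) := by
  let _ : Field (Kv v) := Ideal.Quotient.field v.asIdeal
  let _ : Fintype (Kv v) := Fintype.ofFinite _
  have h3 := hE9 (Kv v) n h hn h1 h2 ι a y t ha
  have h4 : (Fintype.card (Kv v) : ℝ) = q v := by
    rw [← card_Kv, Nat.card_eq_fintype_card]
  rw [h4] at h3
  exact h3

/-- few zeros, as a mean value -/
private lemma zero_mean (hF1 : StF1) (P : Py k m) (hP : P ≠ 0) :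
    ∃ (C : ℝ) (R : Set (Pr k)), 0 ≤ C ∧ R.Finite ∧ ∀ v, v ∉ R →
      (∑ y : Fin m → Kv v, (if val v y P = 0 then (1 : ℝ) else 0)) / (q v : ℝ) ^ m * q v ≤ C := by
  obtain ⟨C, R, hC, hR, h⟩ := hF1 k m P hP
  refine ⟨C, R, hC, hR, fun v hv => ?_⟩
  have h1 := h v hv
  have hq := q_two_tf v
  have hq0 : (0 : ℝ) < (q v : ℝ) ^ m := by positivity
  rw [div_mul_eq_mul_div, div_le_iff₀ hq0]
  refine le_trans (le_of_eq ?_) h1
  congr 1
  rw [Nat.card_eq_fintype_card, Fintype.card_subtype, Finset.sum_ite, Finset.sum_const_zero, add_zero,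
    Finset.sum_const, nsmul_eq_mul, mul_one]

/-- good points for all members of the family -/
private def Ga {ι : Type} (D : ι → Py k m) (f g : (Py k m)[X]) (z : Σ v : Pr k, (Fin m → Kv v)) :
    Prop := (∀ i, val z.1 z.2 (D i) ≠ 0) ∧ Gd f g z.1 z.2

private def GG {ι : Type} (n n' : ℕ) (D : ι → Py k m) (f g : (Py k m)[X]) (i : ι)
    (z : Σ v : Pr k, (Fin m → Kv v)) : ℝ :=
  if Ga D f g z then
    (tN n (C (val z.1 z.2 (D i)) * fib f z.1 z.2) : ℝ) * ((tN n' (fib g z.1 z.2) : ℝ) / q z.1) else 0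

private def KK {ι : Type} (n : ℕ) (D : ι → Py k m) (f g : (Py k m)[X]) (i j : ι)
    (z : Σ v : Pr k, (Fin m → Kv v)) : ℝ :=
  if Ga D f g z then
    (Nat.card {x : Kv z.1 // x ^ n = val z.1 z.2 (D i) * val z.1 z.2 (D j) ^ (n - 1)} : ℝ) - 1 else 0

private lemma tg (hE8 : StE8) {n' : ℕ} (hn' : n'.Prime) {f g : (Py k m)[X]} (hg : 1 ≤ g.natDegree)
    (z : Σ v : Pr k, (Fin m → Kv v)) (h : Gd f g z.1 z.2) :
    |(tN n' (fib g z.1 z.2) : ℝ)| ≤ gg n' g.natDegree * √(q z.1) := by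
  obtain ⟨-, hg1, hg2⟩ := h
  have h1 : 1 ≤ (fib g z.1 z.2).natDegree := by rw [hg1]; exact hg
  have h3 := e8_kv hE8 z.1 n' hn' (fib g z.1 z.2) h1 hg2 1 (by
    let _ : Field (Kv z.1) := Ideal.Quotient.field z.1.asIdeal
    exact one_ne_zero)
  rw [map_one, one_mul, hg1] at h3
  exact h3

private lemma gg_nn {n d : ℕ} : (0 : ℝ) ≤ (gg n d : ℝ) := Nat.cast_nonneg _

private lemma GG_abs (hE8 : StE8) {ι : Type} {n n' : ℕ} (hn : n.Prime) (hn' : n'.Prime)
    (D : ι → Py k m) {f g : (Py k m)[X]} (hf : 1 ≤ f.natDegree) (hg : 1 ≤ g.natDegree) (i : ι)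
    (z : Σ v : Pr k, (Fin m → Kv v)) :
    |GG n n' D f g i z| ≤ (gg n f.natDegree : ℝ) * gg n' g.natDegree := by
  unfold GG
  split_ifs with h
  · obtain ⟨hD, hG⟩ := h
    have hG' := hG
    obtain ⟨⟨hf1, hf2⟩, hg1, hg2⟩ := hG'
    have e1 := e8_kv hE8 z.1 n hn (fib f z.1 z.2) (by rw [hf1]; exact hf) hf2 _ (hD i)
    have e2 := tg hE8 hn' hg z hG
    rw [hf1] at e1
    have hq := q_two_tf z.1
    have hq0 : (0 : ℝ) < q z.1 := by linarith
    rw [← mul_div_assoc, abs_div, abs_of_pos hq0, div_le_iff₀ hq0, abs_mul]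
    refine (mul_le_mul e1 e2 (abs_nonneg _) (by positivity)).trans (le_of_eq ?_)
    have := Real.mul_self_sqrt hq0.le
    linear_combination ((gg n f.natDegree : ℝ) * gg n' g.natDegree) * this
  · rw [abs_zero]
    positivity

private lemma KK_bd (hE7 : StE7) {ι : Type} {n : ℕ} (hn : n.Prime) (D : ι → Py k m)
    (f g : (Py k m)[X]) (i j : ι) (z : Σ v : Pr k, (Fin m → Kv v)) :
    |KK n D f g i j z| ≤ n ∧ KK n D f g i j z ≤ (n : ℝ) - 1 := by
  have h2 : (2 : ℝ) ≤ n := by exact_mod_cast hn.two_le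
  unfold KK
  split_ifs with h
  · have h1 : ((Nat.card {x : Kv z.1 // x ^ n = val z.1 z.2 (D i) * val z.1 z.2 (D j) ^ (n - 1)} : ℕ)
        : ℝ) ≤ n := by exact_mod_cast e7_kv hE7 z.1 n hn _
    have h0 : (0 : ℝ) ≤ ((Nat.card {x : Kv z.1 // x ^ n = val z.1 z.2 (D i) *
        val z.1 z.2 (D j) ^ (n - 1)} : ℕ) : ℝ) := Nat.cast_nonneg _
    exact ⟨abs_le.2 ⟨by linarith, by linarith⟩, by linarith⟩
  · rw [abs_zero]
    exact ⟨by linarith, by linarith⟩

private lemma main_ineq (hE8 : StE8) (hE9 : StE9) {ι : Type} [Fintype ι] {n n' : ℕ} (hn : n.Prime)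
    (hn' : n'.Prime) (D : ι → Py k m) {f g : (Py k m)[X]} (hf : 1 ≤ f.natDegree)
    (hg : 1 ≤ g.natDegree) (z : Σ v : Pr k, (Fin m → Kv v)) (y : ι → ℝ) :
    2 * ∑ i, y i * GG n n' D f g i z ≤
      ((n : ℝ) - 1) * (((n : ℝ) - 1) * ((dd n f.natDegree : ℝ) * gg n' g.natDegree) ^ 2) +
      ((n : ℝ) - 1)⁻¹ * ∑ i, ∑ j, y i * y j * KK n D f g i j z := by
  have h2 : (2 : ℝ) ≤ n := by exact_mod_cast hn.two_le
  have hn1 : (0 : ℝ) ≤ (n : ℝ) - 1 := by linarith
  by_cases h : Ga D f g z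
  · have hG : ∀ i, GG n n' D f g i z =
      (tN n (C (val z.1 z.2 (D i)) * fib f z.1 z.2) : ℝ) * ((tN n' (fib g z.1 z.2) : ℝ) / q z.1) :=
      fun i => if_pos h
    have hK : ∀ i j, KK n D f g i j z = (Nat.card {x : Kv z.1 // x ^ n =
      val z.1 z.2 (D i) * val z.1 z.2 (D j) ^ (n - 1)} : ℝ) - 1 := fun i j => if_pos h
    simp only [hG, hK]
    obtain ⟨hD, hGd⟩ := h
    have hG' := hGd
    obtain ⟨⟨hf1, hf2⟩, hg1, hg2⟩ := hG'
    have e1 := e9_kv hE9 z.1 n hn (fib f z.1 z.2) (by rw [hf1]; exact hf) hf2 ι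
      (fun i => val z.1 z.2 (D i)) y ((tN n' (fib g z.1 z.2) : ℝ) / q z.1) hD
    rw [hf1] at e1
    refine e1.trans (add_le_add_left ?_ _)
    refine mul_le_mul_of_nonneg_left (mul_le_mul_of_nonneg_left ?_ hn1) hn1
    have e2 := tg hE8 hn' hg z hGd
    have hq := q_two_tf z.1
    have hq0 : (0 : ℝ) < q z.1 := by linarith
    have hs0 : 0 < √(q z.1 : ℝ) := Real.sqrt_pos.2 hq0
    have hss := Real.mul_self_sqrt hq0.le
    refine sq_le_sq' ?_ ?_
    · have : -((dd n f.natDegree : ℝ) * gg n' g.natDegree) ≤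
          dd n f.natDegree * (√(q z.1) * ((tN n' (fib g z.1 z.2) : ℝ) / q z.1)) := by
        rw [← mul_neg]
        refine mul_le_mul_of_nonneg_left ?_ (Nat.cast_nonneg _)
        rw [← mul_div_assoc, le_div_iff₀ hq0]
        have h5 := (abs_le.1 e2).1
        nlinarith [mul_le_mul_of_nonneg_left h5 hs0.le]
      linarith [this]
    · have : dd n f.natDegree * (√(q z.1) * ((tN n' (fib g z.1 z.2) : ℝ) / q z.1)) ≤
          (dd n f.natDegree : ℝ) * gg n' g.natDegree := by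
        refine mul_le_mul_of_nonneg_left ?_ (Nat.cast_nonneg _)
        rw [← mul_div_assoc, div_le_iff₀ hq0]
        have h5 := (abs_le.1 e2).2
        nlinarith [mul_le_mul_of_nonneg_left h5 hs0.le]
      linarith [this]
  · have hG : ∀ i, GG n n' D f g i z = 0 := fun i => if_neg h
    have hK : ∀ i j, KK n D f g i j z = 0 := fun i j => if_neg h
    simp only [hG, hK, mul_zero, Finset.sum_const_zero, add_zero]
    positivity

theorem hE12 (hA2 : StA2) (_hA7 : StA7) (hF1 : StF1) (hF2 : StF2) (hF7 : StF7) (hE7 : StE7)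
    (hE8 : StE8) (hE9 : StE9) (hE10 : StE10) (hE11 : StE11) : StE12 := by
  intro k _ _ m f g hf hg hfs hgs n n' hn hn' ι _ D hD hDD C R b hR hb
  have hs := (hA2 k).1
  have hl := (hA2 k).2
  have hq0 : ∀ v : Pr k, (0 : ℝ) < q v := fun v => by linarith [q_two_tf v]
  have hn2 : (2 : ℝ) ≤ n := by exact_mod_cast hn.two_le
  set B : ℝ := (gg n f.natDegree : ℝ) * gg n' g.natDegree with hB
  have hB0 : 0 ≤ B := by positivity
  set V := Σ v : Pr k, (Fin m → Kv v) with hV
  -- means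
  set μ : ι → Pr k → ℝ := fun i v =>
    (∑ y : Fin m → Kv v, GG n n' D f g i ⟨v, y⟩) / (q v : ℝ) ^ m with hμ
  have hcx : ∀ i (z : V), |GG n n' D f g i z| ≤ B := fun i z => GG_abs hE8 hn hn' D hf hg i z
  have hμB : ∀ i v, |μ i v| ≤ B := by
    intro i v
    have hqm : (0 : ℝ) < (q v : ℝ) ^ m := pow_pos (hq0 v) m
    rw [abs_div, abs_of_pos hqm, div_le_iff₀ hqm]
    refine (Finset.abs_sum_le_sum_abs _ _).trans ?_
    refine (Finset.sum_le_sum fun y _ => hcx i ⟨v, y⟩).trans (le_of_eq ?_)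
    rw [Finset.sum_const, Finset.card_univ, nsmul_eq_mul, ftcard_fun, mul_comm]
  -- the bad points
  have hf0 : f ≠ 0 := fun h => by simp [h] at hf
  have hg0 : g ≠ 0 := fun h => by simp [h] at hg
  obtain ⟨Pf, hPf, hPf'⟩ := hF2 k m f hf0 hfs
  obtain ⟨Pg, hPg, hPg'⟩ := hF2 k m g hg0 hgs
  obtain ⟨Cz, Rz, hCz, hRz, hz⟩ := zero_mean hF1 ((∏ i, D i) * (Pf * Pg))
    (mul_ne_zero (Finset.prod_ne_zero_iff.2 fun i _ => hD i) (mul_ne_zero hPf hPg))
  have hbad : ∀ (v : Pr k) (y : Fin m → Kv v), ¬ Ga D f g ⟨v, y⟩ →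
      val v y ((∏ i, D i) * (Pf * Pg)) = 0 := by
    intro v y hG
    by_contra hne
    rw [map_mul, map_mul] at hne
    have n1 : val v y (∏ i, D i) ≠ 0 := left_ne_zero_of_mul hne
    have n2 : val v y Pf ≠ 0 := left_ne_zero_of_mul (right_ne_zero_of_mul hne)
    have n3 : val v y Pg ≠ 0 := right_ne_zero_of_mul (right_ne_zero_of_mul hne)
    refine hG ⟨fun i hi => n1 ?_, hPf' v y n2, hPg' v y n3⟩
    rw [map_prod]
    exact Finset.prod_eq_zero (Finset.mem_univ i) hi
  -- the kernel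
  have hker : ∀ i j, i ≠ j → Tendsto (fun s : ℝ => ∑' z : V, (s - 1) * wt s z.1 / (q z.1 : ℝ) ^ m *
      KK n D f g i j z) (𝓝[>] 1) (𝓝 0) := by
    intro i j hij
    have hKn : ∀ z : V, |KK n D f g i j z| ≤ n := fun z => (KK_bd hE7 hn D f g i j z).1
    have e1 : ∀ᶠ s : ℝ in 𝓝[>] 1, (s - 1) * ∑' v : Pr k,
        ((∑ y : Fin m → Kv v, KK n D f g i j ⟨v, y⟩) / (q v : ℝ) ^ m) * wt s v =
        ∑' z : V, (s - 1) * wt s z.1 / (q z.1 : ℝ) ^ m * KK n D f g i j z := by
      filter_upwards [self_mem_nhdsWithin] with s hs1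
      exact ((sig_tf hA2 hs1 (fun z => KK n D f g i j z) n hKn).2).symm
    refine Tendsto.congr' e1 ?_
    have hne : D i * D j ^ (n - 1) ≠ 0 := mul_ne_zero (hD i) (pow_ne_zero _ (hD j))
    have h1 := hE11 k m n (D i * D j ^ (n - 1)) hn hne (hDD i j hij)
    have hnu : ∀ (v : Pr k) (c : Kv v), |((Nat.card {x : Kv v // x ^ n = c} : ℕ) : ℝ) - 1| ≤ n := by
      intro v c
      have h1 : ((Nat.card {x : Kv v // x ^ n = c} : ℕ) : ℝ) ≤ n := by
        exact_mod_cast e7_kv hE7 v n hn c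
      have h0 : (0 : ℝ) ≤ ((Nat.card {x : Kv v // x ^ n = c} : ℕ) : ℝ) := Nat.cast_nonneg _
      exact abs_le.2 ⟨by linarith, by linarith⟩
    set a : Pr k → ℝ := fun v => (∑ y : Fin m → Kv v, KK n D f g i j ⟨v, y⟩) / (q v : ℝ) ^ m -
      avN n (D i * D j ^ (n - 1)) v with ha
    have hK1 : ∀ v : Pr k, |(∑ y : Fin m → Kv v, KK n D f g i j ⟨v, y⟩) / (q v : ℝ) ^ m| ≤ n := by
      intro v
      have hqm : (0 : ℝ) < (q v : ℝ) ^ m := pow_pos (hq0 v) m
      rw [abs_div, abs_of_pos hqm, div_le_iff₀ hqm]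
      refine (Finset.abs_sum_le_sum_abs _ _).trans ?_
      refine (Finset.sum_le_sum fun y _ => hKn ⟨v, y⟩).trans (le_of_eq ?_)
      rw [Finset.sum_const, Finset.card_univ, nsmul_eq_mul, ftcard_fun, mul_comm]
    have hav : ∀ v, |avN n (D i * D j ^ (n - 1)) v| ≤ n := by
      intro v
      have hqm : (0 : ℝ) < (q v : ℝ) ^ m := pow_pos (hq0 v) m
      unfold avN
      rw [finsum_eq_sum_of_fintype, abs_div, abs_of_pos hqm, div_le_iff₀ hqm]
      refine (Finset.abs_sum_le_sum_abs _ _).trans ?_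
      refine (Finset.sum_le_sum fun y _ => hnu v _).trans (le_of_eq ?_)
      rw [Finset.sum_const, Finset.card_univ, nsmul_eq_mul, ftcard_fun, mul_comm]
    have haM : ∀ v, |a v| ≤ 2 * n := fun v => by
      have h3 := abs_le.1 (hK1 v)
      have h4 := abs_le.1 (hav v)
      exact abs_le.2 ⟨by simp only [ha]; linarith [h3.1, h4.2],
        by simp only [ha]; linarith [h3.2, h4.1]⟩
    have hn0 := null_tf hA2 a (2 * n) (n * Cz) Rz hRz haM (fun v hv => by
      have hqm : (0 : ℝ) < (q v : ℝ) ^ m := pow_pos (hq0 v) m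
      have h4 := hz v hv
      have hterm : ∀ y : Fin m → Kv v, |KK n D f g i j ⟨v, y⟩ -
          (((Nat.card {x : Kv v // x ^ n = val v y (D i * D j ^ (n - 1))} : ℕ) : ℝ) - 1)| ≤
          n * (if val v y ((∏ i, D i) * (Pf * Pg)) = 0 then (1 : ℝ) else 0) := by
        intro y
        by_cases hG : Ga D f g ⟨v, y⟩
        · have e2 : KK n D f g i j ⟨v, y⟩ =
            ((Nat.card {x : Kv v // x ^ n = val v y (D i * D j ^ (n - 1))} : ℕ) : ℝ) - 1 := by
            unfold KK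
            rw [if_pos hG, map_mul, map_pow]
          rw [e2, sub_self, abs_zero]
          split_ifs <;> positivity
        · have e2 : KK n D f g i j ⟨v, y⟩ = 0 := if_neg hG
          rw [e2, zero_sub, abs_neg, if_pos (hbad v y hG), mul_one]
          exact hnu v _
      have e5 : |a v| ≤ n * ((∑ y : Fin m → Kv v,
          (if val v y ((∏ i, D i) * (Pf * Pg)) = 0 then (1 : ℝ) else 0)) / (q v : ℝ) ^ m) := by
        simp only [ha]
        unfold avN
        rw [finsum_eq_sum_of_fintype, ← sub_div, ← Finset.sum_sub_distrib, abs_div,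
          abs_of_pos hqm, div_le_iff₀ hqm, mul_assoc, div_mul_cancel₀ _ hqm.ne', Finset.mul_sum]
        exact (Finset.abs_sum_le_sum_abs _ _).trans (Finset.sum_le_sum fun y _ => hterm y)
      have hsq : √(q v : ℝ) ≤ q v := by
        rw [Real.sqrt_le_left (hq0 v).le]
        nlinarith [q_two_tf v]
      have h6 : 0 ≤ (∑ y : Fin m → Kv v,
          (if val v y ((∏ i, D i) * (Pf * Pg)) = 0 then (1 : ℝ) else 0)) / (q v : ℝ) ^ m :=
        div_nonneg (Finset.sum_nonneg fun y _ => by split_ifs <;> norm_num) hqm.le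
      calc |a v| * √(q v : ℝ) ≤ (n * ((∑ y : Fin m → Kv v,
          (if val v y ((∏ i, D i) * (Pf * Pg)) = 0 then (1 : ℝ) else 0)) / (q v : ℝ) ^ m)) * q v :=
            mul_le_mul e5 hsq (Real.sqrt_nonneg _) (mul_nonneg (Nat.cast_nonneg _) h6)
        _ = n * ((∑ y : Fin m → Kv v,
          (if val v y ((∏ i, D i) * (Pf * Pg)) = 0 then (1 : ℝ) else 0)) / (q v : ℝ) ^ m * q v) := by
            ring
        _ ≤ n * Cz := mul_le_mul_of_nonneg_left h4 (Nat.cast_nonneg _))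
    have h6 := hn0.add h1
    rw [add_zero] at h6
    refine h6.congr' ?_
    filter_upwards [self_mem_nhdsWithin] with s hs1
    have hs2 : (1 : ℝ) < s := hs1
    rw [← mul_add, ← Summable.tsum_add]
    · congr 1
      refine tsum_congr fun v => ?_
      simp only [ha]
      ring
    · refine ((hs s hs2).mul_left (2 * (n : ℝ))).of_norm_bounded fun v => ?_
      rw [norm_mul, Real.norm_of_nonneg (wt_nonneg_tf s v), Real.norm_eq_abs]
      exact mul_le_mul_of_nonneg_right (haM v) (wt_nonneg_tf s v)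
    · refine ((hs s hs2).mul_left (n : ℝ)).of_norm_bounded fun v => ?_
      rw [norm_mul, Real.norm_of_nonneg (wt_nonneg_tf s v), Real.norm_eq_abs]
      exact mul_le_mul_of_nonneg_right (hav v) (wt_nonneg_tf s v)
  -- Bessel
  have hNA : ((n : ℝ) - 1) * (((n : ℝ) - 1) * ((dd n f.natDegree : ℝ) * gg n' g.natDegree) ^ 2) =
      B ^ 2 := by
    rw [hB]
    have e1 : (gg n f.natDegree : ℝ) = ((n : ℝ) - 1) * dd n f.natDegree := by
      unfold gg
      rw [Nat.cast_mul, Nat.cast_sub hn.one_lt.le, Nat.cast_one]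
    rw [e1]
    ring
  have hbes := hE10 V ι (fun s z => (s - 1) * wt s z.1 / (q z.1 : ℝ) ^ m) (GG n n' D f g)
    (KK n D f g) ((n : ℝ) - 1) (((n : ℝ) - 1) * ((dd n f.natDegree : ℝ) * gg n' g.natDegree) ^ 2)
    (B + n) (by linarith) (mul_nonneg (by linarith) (sq_nonneg _))
    (by
      filter_upwards [self_mem_nhdsWithin] with s hs1
      have hs2 : (1 : ℝ) < s := hs1
      refine ⟨fun z => div_nonneg (mul_nonneg (by linarith) (wt_nonneg_tf s z.1))
        (pow_nonneg (hq0 z.1).le m), ?_⟩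
      have h := (sig_tf (k := k) (m := m) hA2 hs2 (fun _ => (1 : ℝ)) 1 (fun _ => by simp)).1
      simpa using h)
    (by
      refine hl.congr' ?_
      filter_upwards [self_mem_nhdsWithin] with s hs1
      have hs2 : (1 : ℝ) < s := hs1
      have h := (sig_tf (k := k) (m := m) hA2 hs2 (fun _ => (1 : ℝ)) 1 (fun _ => by simp)).2
      simp only [mul_one] at h
      rw [h]
      congr 1
      refine tsum_congr fun v => ?_
      rw [Finset.sum_const, Finset.card_univ, nsmul_eq_mul, ftcard_fun, mul_one,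
        div_self (pow_pos (hq0 v) m).ne', one_mul])
    (fun i z => (hcx i z).trans (by linarith))
    (fun i j z => (KK_bd hE7 hn D f g i j z).1.trans (by linarith))
    (fun i z => (KK_bd hE7 hn D f g i i z).2)
    (fun z y => main_ineq hE8 hE9 hn hn' D hf hg z y) hker
  rw [hNA] at hbes
  have hbes' : ∀ ε > 0, ∀ᶠ s : ℝ in 𝓝[>] 1,
      ∑ i, ((s - 1) * ∑' v : Pr k, μ i v * wt s v) ^ 2 ≤ B ^ 2 + ε := by
    intro ε hε
    filter_upwards [hbes ε hε, self_mem_nhdsWithin] with s h1 hs1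
    have hs2 : (1 : ℝ) < s := hs1
    refine le_trans (le_of_eq ?_) h1
    refine Finset.sum_congr rfl fun i _ => ?_
    rw [(sig_tf hA2 hs2 (fun z => GG n n' D f g i z) B (hcx i)).2]
  -- comparison with the mean over the smooth fibres
  have hfin := hF7 k ι μ B hμB hbes' (C + (2 + B) * Cz) (R ∪ Rz) b (hR.union hRz) fun i v hv => by
    have hvR : v ∉ R := fun h => hv (Or.inl h)
    have hvz : v ∉ Rz := fun h => hv (Or.inr h)
    have hqm : (0 : ℝ) < (q v : ℝ) ^ m := pow_pos (hq0 v) m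
    have hterm : ∀ y : Fin m → Kv v, |(2 * (q v : ℝ) + GG n n' D f g i ⟨v, y⟩ * q v) -
        (if Good (D i) f g v y then (2 * (q v : ℝ) +
          (tN n (Polynomial.C (val v y (D i)) * fib f v y) : ℝ) * (tN n' (fib g v y) : ℝ)) else 0)| ≤
        (2 + B) * q v * (if val v y ((∏ i, D i) * (Pf * Pg)) = 0 then (1 : ℝ) else 0) := by
      intro y
      by_cases hG : Ga D f g ⟨v, y⟩
      · have hGood : Good (D i) f g v y := ⟨hG.1 i, hG.2⟩
        have e1 : GG n n' D f g i ⟨v, y⟩ =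
            (tN n (Polynomial.C (val v y (D i)) * fib f v y) : ℝ) * ((tN n' (fib g v y) : ℝ) / q v) :=
          if_pos hG
        rw [if_pos hGood, e1]
        have e3 : (2 * (q v : ℝ) + (tN n (Polynomial.C (val v y (D i)) * fib f v y) : ℝ) *
            ((tN n' (fib g v y) : ℝ) / q v) * q v) - (2 * (q v : ℝ) +
            (tN n (Polynomial.C (val v y (D i)) * fib f v y) : ℝ) * (tN n' (fib g v y) : ℝ)) = 0 := by
          have hqne : (q v : ℝ) ≠ 0 := (hq0 v).ne'
          rw [mul_assoc, div_mul_cancel₀ _ hqne]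
          ring
        rw [e3, abs_zero]
        have := (hq0 v).le
        split_ifs <;> positivity
      · have e1 : GG n n' D f g i ⟨v, y⟩ = 0 := if_neg hG
        rw [e1, zero_mul, add_zero, if_pos (hbad v y hG), mul_one]
        split_ifs with hGood
        · rw [sub_add_cancel_left, abs_neg, abs_mul]
          obtain ⟨hDi, hGd⟩ := hGood
          have hGd' : Gd f g v y := hGd
          have hG' := hGd'
          obtain ⟨⟨hf1, hf2⟩, hg1, hg2⟩ := hG'
          have e3 := e8_kv hE8 v n hn (fib f v y) (by rw [hf1]; exact hf) hf2 _ hDi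
          have e4 := tg hE8 hn' hg ⟨v, y⟩ hGd'
          rw [hf1] at e3
          refine (mul_le_mul e3 e4 (abs_nonneg _) (by positivity)).trans ?_
          have h5 := Real.mul_self_sqrt (hq0 v).le
          have e5 : (gg n f.natDegree : ℝ) * √(q v : ℝ) * (gg n' g.natDegree * √(q v : ℝ)) =
              B * q v := by
            rw [hB]
            linear_combination ((gg n f.natDegree : ℝ) * gg n' g.natDegree) * h5
          have e6 : (gg n f.natDegree : ℝ) * √(q v : ℝ) * (gg n' g.natDegree * √(q v : ℝ)) ≤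
              (2 + B) * q v := by
            rw [e5]
            nlinarith [hq0 v]
          exact e6
        · rw [sub_zero, abs_of_pos (by linarith [hq0 v])]
          nlinarith [hq0 v, mul_nonneg hB0 (hq0 v).le]
    have hmain : |(2 * (q v : ℝ) + μ i v * q v) - BN n n' (D i) f g v| ≤ (2 + B) * Cz := by
      have e1 : (2 * (q v : ℝ) + μ i v * q v) = (∑ y : Fin m → Kv v,
          (2 * (q v : ℝ) + GG n n' D f g i ⟨v, y⟩ * q v)) / (q v : ℝ) ^ m := by
        rw [Finset.sum_add_distrib, Finset.sum_const, Finset.card_univ, nsmul_eq_mul, ftcard_fun,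
          ← Finset.sum_mul, add_div, mul_div_cancel_left₀ _ hqm.ne']
        simp only [hμ]
        ring
      rw [e1]
      unfold BN
      rw [finsum_eq_sum_of_fintype, ← sub_div, ← Finset.sum_sub_distrib, abs_div,
        abs_of_pos hqm, div_le_iff₀ hqm]
      refine (Finset.abs_sum_le_sum_abs _ _).trans ?_
      refine (Finset.sum_le_sum fun y _ => hterm y).trans ?_
      rw [← Finset.mul_sum]
      have h4 := hz v hvz
      rw [div_mul_eq_mul_div, div_le_iff₀ hqm] at h4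
      have hB2 : 0 ≤ 2 + B := by linarith
      nlinarith [mul_le_mul_of_nonneg_left h4 hB2]
    have h6 := hb i v hvR
    have h7 := abs_le.1 hmain
    have h8 := abs_le.1 h6
    exact abs_le.2 ⟨by linarith [h7.1, h7.2, h8.1], by linarith [h7.1, h7.2, h8.2]⟩
  have hBc : B = ((gg n f.natDegree * gg n' g.natDegree : ℕ) : ℝ) := by
    rw [hB, Nat.cast_mul]
  rw [hBc] at hfin
  exact hfin

end

end Pool.Agent.Helper91.SE
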